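import Mathlib
import Pool.Agent.H39.WCAbs

/-! # H91.WC.Mat : a 4 x 4 example for the literal integrability condition

`L0 (x1, x2, h1, h2) = (0, x2, -h2, h1)`, `L (x1, x2, h1, h2) = (h1 - h2, 0, x2, 0)`, `P` the projection on the
first two coordinates.  The only products `P L_{t_1} .. L_{t_k} P` which are not zero are those with `k = 2`, equal to
`exp t_2 (cos (t_1 - t_2) - sin (t_1 - t_2)) E`; the reduced evolution is `P + lam^2 (1 - cos T) E`. -/

set_option autoImplicit false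
open MeasureTheory Filter Topology Set Asymptotics
open Pool.Agent.H39.WC

namespace Pool.Agent.H91.WC

/-- the space -/
abbrev M4 : Type := ℂ × ℂ × ℂ × ℂ

noncomputable def c1 : M4 →L[ℂ] ℂ := ContinuousLinearMap.fst ℂ ℂ (ℂ × ℂ × ℂ)
noncomputable def c2 : M4 →L[ℂ] ℂ := (ContinuousLinearMap.fst ℂ ℂ (ℂ × ℂ)).comp (ContinuousLinearMap.snd ℂ ℂ (ℂ × ℂ × ℂ))
noncomputable def c3 : M4 →L[ℂ] ℂ := (ContinuousLinearMap.fst ℂ ℂ ℂ).comp
  ((ContinuousLinearMap.snd ℂ ℂ (ℂ × ℂ)).comp (ContinuousLinearMap.snd ℂ ℂ (ℂ × ℂ × ℂ)))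
noncomputable def c4 : M4 →L[ℂ] ℂ := (ContinuousLinearMap.snd ℂ ℂ ℂ).comp
  ((ContinuousLinearMap.snd ℂ ℂ (ℂ × ℂ)).comp (ContinuousLinearMap.snd ℂ ℂ (ℂ × ℂ × ℂ)))

/-- the projection -/
noncomputable def P4 : M4 →L[ℂ] M4 := c1.prod (c2.prod ((0 : M4 →L[ℂ] ℂ).prod 0))
/-- the unperturbed generator -/
noncomputable def D4 : M4 →L[ℂ] M4 := (0 : M4 →L[ℂ] ℂ).prod (c2.prod ((-c4).prod c3))
/-- the perturbation -/
noncomputable def L4 : M4 →L[ℂ] M4 := (c3 - c4).prod ((0 : M4 →L[ℂ] ℂ).prod (c2.prod 0))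
/-- the matrix unit -/
noncomputable def E4 : M4 →L[ℂ] M4 := c2.prod ((0 : M4 →L[ℂ] ℂ).prod ((0 : M4 →L[ℂ] ℂ).prod 0))

theorem P4_apply (x : M4) : P4 x = (x.1, x.2.1, 0, 0) := rfl
theorem D4_apply (x : M4) : D4 x = (0, x.2.1, -x.2.2.2, x.2.2.1) := rfl
theorem L4_apply (x : M4) : L4 x = (x.2.2.1 - x.2.2.2, 0, x.2.1, 0) := rfl
theorem E4_apply (x : M4) : E4 x = (x.2.1, 0, 0, 0) := rfl

theorem E4_ne : E4 ≠ 0 := by
  intro h
  have h1 := congrArg (fun A : M4 →L[ℂ] M4 => (A (0, 1, 0, 0)).1) h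
  simp [E4_apply] at h1

private theorem hd_exp (t : ℝ) : HasDerivAt (fun u : ℝ => ((Real.exp u : ℝ) : ℂ)) ((Real.exp t : ℝ) : ℂ) t :=
  (Real.hasDerivAt_exp t).ofReal_comp
private theorem hd_cos (t : ℝ) : HasDerivAt (fun u : ℝ => ((Real.cos u : ℝ) : ℂ)) (-((Real.sin t : ℝ) : ℂ)) t := by
  have h := (Real.hasDerivAt_cos t).ofReal_comp
  rwa [Complex.ofReal_neg] at h
private theorem hd_sin (t : ℝ) : HasDerivAt (fun u : ℝ => ((Real.sin u : ℝ) : ℂ)) ((Real.cos t : ℝ) : ℂ) t :=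
  (Real.hasDerivAt_sin t).ofReal_comp

theorem sgrp_D4 (t : ℝ) (x : M4) : sgrp D4 t x = (x.1, (Real.exp t : ℂ) * x.2.1,
    (Real.cos t : ℂ) * x.2.2.1 - (Real.sin t : ℂ) * x.2.2.2, (Real.sin t : ℂ) * x.2.2.1 + (Real.cos t : ℂ) * x.2.2.2) := by
  have h := eq_sgrp_of_hasDerivAt D4 (fun u : ℝ => ((x.1, (Real.exp u : ℂ) * x.2.1,
    (Real.cos u : ℂ) * x.2.2.1 - (Real.sin u : ℂ) * x.2.2.2,
    (Real.sin u : ℂ) * x.2.2.1 + (Real.cos u : ℂ) * x.2.2.2) : M4)) (fun u => ?_) t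
  · rw [h]
    simp
  · have h1 : HasDerivAt (fun _ : ℝ => x.1) 0 u := hasDerivAt_const u x.1
    have h2 := (hd_exp u).mul_const x.2.1
    have h3 := ((hd_cos u).mul_const x.2.2.1).sub ((hd_sin u).mul_const x.2.2.2)
    have h4 := ((hd_sin u).mul_const x.2.2.1).add ((hd_cos u).mul_const x.2.2.2)
    have h5 := h1.prodMk (h2.prodMk (h3.prodMk h4))
    refine h5.congr_deriv ?_
    rw [D4_apply]
    refine Prod.ext rfl (Prod.ext rfl (Prod.ext ?_ ?_))
    · simp only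
      ring
    · simp only
      ring

theorem sgrp_DL4 (lam t : ℝ) (x : M4) : sgrp (D4 + (lam : ℂ) • L4) t (P4 x) =
    (x.1 + (lam : ℂ) ^ 2 * x.2.1 * (1 - (Real.cos t : ℂ)), (Real.exp t : ℂ) * x.2.1,
      (lam : ℂ) * x.2.1 * (((Real.exp t : ℂ) - (Real.cos t : ℂ) + (Real.sin t : ℂ)) / 2),
      (lam : ℂ) * x.2.1 * (((Real.exp t : ℂ) - (Real.sin t : ℂ) - (Real.cos t : ℂ)) / 2)) := by
  have h := eq_sgrp_of_hasDerivAt (D4 + (lam : ℂ) • L4) (fun u : ℝ =>
    ((x.1 + (lam : ℂ) ^ 2 * x.2.1 * (1 - (Real.cos u : ℂ)), (Real.exp u : ℂ) * x.2.1,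
      (lam : ℂ) * x.2.1 * (((Real.exp u : ℂ) - (Real.cos u : ℂ) + (Real.sin u : ℂ)) / 2),
      (lam : ℂ) * x.2.1 * (((Real.exp u : ℂ) - (Real.sin u : ℂ) - (Real.cos u : ℂ)) / 2)) : M4)) (fun u => ?_) t
  · rw [h]
    congr 1
    rw [P4_apply]
    simp
  · have h1 : HasDerivAt (fun v : ℝ => x.1 + (lam : ℂ) ^ 2 * x.2.1 * (1 - (Real.cos v : ℂ)))
        ((lam : ℂ) ^ 2 * x.2.1 * -(-(Real.sin u : ℂ))) u := (((hd_cos u).const_sub 1).const_mul _).const_add _
    have h2 := (hd_exp u).mul_const x.2.1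
    have h3 := ((((hd_exp u).sub (hd_cos u)).add (hd_sin u)).div_const 2).const_mul ((lam : ℂ) * x.2.1)
    have h4 := ((((hd_exp u).sub (hd_sin u)).sub (hd_cos u)).div_const 2).const_mul ((lam : ℂ) * x.2.1)
    have h5 := h1.prodMk (h2.prodMk (h3.prodMk h4))
    refine h5.congr_deriv ?_
    have e : ∀ y : M4, (D4 + (lam : ℂ) • L4) y = (0 + (lam : ℂ) * (y.2.2.1 - y.2.2.2), y.2.1 + (lam : ℂ) * 0,
        -y.2.2.2 + (lam : ℂ) * y.2.1, y.2.2.1 + (lam : ℂ) * 0) := fun y => rfl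
    rw [e]
    refine Prod.ext ?_ (Prod.ext ?_ (Prod.ext ?_ ?_))
    · simp only
      ring
    · simp only
      ring
    · simp only
      ring
    · simp only
      ring

theorem inter_D4 (t : ℝ) (x : M4) : inter D4 L4 t x =
    (((Real.cos t : ℂ) - (Real.sin t : ℂ)) * x.2.2.1 - ((Real.cos t : ℂ) + (Real.sin t : ℂ)) * x.2.2.2, 0,
      (Real.exp t : ℂ) * (Real.cos t : ℂ) * x.2.1, -((Real.exp t : ℂ) * (Real.sin t : ℂ) * x.2.1)) := by
  have e : inter D4 L4 t x = sgrp D4 (-t) (L4 (sgrp D4 t x)) := rfl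
  rw [e, sgrp_D4, L4_apply, sgrp_D4, Real.cos_neg, Real.sin_neg]
  refine Prod.ext ?_ (Prod.ext ?_ (Prod.ext ?_ ?_))
  · simp only
    ring
  · simp only
    ring
  · simp only
    ring
  · simp only
    push_cast
    ring

/-- the second order product -/
theorem two (s r : ℝ) : P4 * (inter D4 L4 s * inter D4 L4 r) * P4 =
    ((Real.exp r * (Real.cos (s - r) - Real.sin (s - r)) : ℝ) : ℂ) • E4 := by
  apply ContinuousLinearMap.ext
  intro x
  have e : (P4 * (inter D4 L4 s * inter D4 L4 r) * P4) x = P4 (inter D4 L4 s (inter D4 L4 r (P4 x))) := rfl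
  rw [e, inter_D4, inter_D4, P4_apply, P4_apply, smul_apply, E4_apply, Real.cos_sub, Real.sin_sub]
  refine Prod.ext ?_ (Prod.ext ?_ (Prod.ext ?_ ?_))
  · simp only [Prod.smul_fst, smul_eq_mul]
    push_cast
    ring
  · simp only [Prod.smul_fst, Prod.smul_snd, smul_zero]
  · simp only [Prod.smul_fst, Prod.smul_snd, smul_zero]
  · simp only [Prod.smul_snd, smul_zero]

theorem one (s : ℝ) : P4 * inter D4 L4 s * P4 = 0 := by
  apply ContinuousLinearMap.ext
  intro x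
  have e : (P4 * inter D4 L4 s * P4) x = P4 (inter D4 L4 s (P4 x)) := rfl
  rw [e, inter_D4, P4_apply, P4_apply]
  simp

/-- three factors give zero -/
theorem three (s r q : ℝ) : inter D4 L4 s * (inter D4 L4 r * inter D4 L4 q) = 0 := by
  apply ContinuousLinearMap.ext
  intro x
  have e : (inter D4 L4 s * (inter D4 L4 r * inter D4 L4 q)) x = inter D4 L4 s (inter D4 L4 r (inter D4 L4 q x)) := rfl
  rw [e, inter_D4, inter_D4, inter_D4]
  simp

theorem many (a b c : ℝ) (l : List ℝ) : ((a :: b :: c :: l).map (inter D4 L4)).prod = 0 := by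
  rw [List.map_cons, List.map_cons, List.map_cons, List.prod_cons, List.prod_cons, List.prod_cons, ← mul_assoc (inter D4 L4 b),
    ← mul_assoc, three, zero_mul]

theorem ofFn_eq {k : ℕ} (τ : Fin k → ℝ) : (List.ofFn fun i => inter D4 L4 (τ i)) = (List.ofFn τ).map (inter D4 L4) := by
  rw [List.map_ofFn]
  rfl

/-- all products of orders other than two vanish -/
theorem other (k : ℕ) (hk : 1 ≤ k) (hk2 : k ≠ 2) (τ : Fin k → ℝ) :
    P4 * (List.ofFn fun i => inter D4 L4 (τ i)).prod * P4 = 0 := by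
  match k, hk, hk2 with
  | 1, _, _ =>
    rw [List.ofFn_succ, List.ofFn_zero, List.prod_cons, List.prod_nil, mul_one, one]
  | k + 3, _, _ =>
    rw [ofFn_eq, List.ofFn_succ, List.ofFn_succ, List.ofFn_succ, many, mul_zero, zero_mul]

/-- the setting -/
theorem P4_idem : P4 * P4 = P4 := by
  apply ContinuousLinearMap.ext
  intro x
  rfl

theorem P4_comm (t : ℝ) : sgrp D4 t * P4 = P4 * sgrp D4 t := by
  apply ContinuousLinearMap.ext
  intro x
  have e : (sgrp D4 t * P4) x = sgrp D4 t (P4 x) := rfl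
  have e' : (P4 * sgrp D4 t) x = P4 (sgrp D4 t x) := rfl
  rw [e, e', sgrp_D4, sgrp_D4, P4_apply, P4_apply]
  simp

theorem P4_off : P4 * L4 * P4 = 0 := by
  apply ContinuousLinearMap.ext
  intro x
  have e : (P4 * L4 * P4) x = P4 (L4 (P4 x)) := rfl
  rw [e, L4_apply, P4_apply, P4_apply]
  simp

/-- the reduced evolution -/
theorem red (lam t : ℝ) : P4 * (sgrp D4 (-t) * sgrp (D4 + (lam : ℂ) • L4) t) * P4 =
    P4 + ((lam ^ 2 * (1 - Real.cos t) : ℝ) : ℂ) • E4 := by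
  apply ContinuousLinearMap.ext
  intro x
  have e : (P4 * (sgrp D4 (-t) * sgrp (D4 + (lam : ℂ) • L4) t) * P4) x =
    P4 (sgrp D4 (-t) (sgrp (D4 + (lam : ℂ) • L4) t (P4 x))) := rfl
  rw [e, sgrp_DL4, sgrp_D4, P4_apply, add_apply, smul_apply, E4_apply, P4_apply]
  have h : (Real.exp (-t) : ℂ) * (Real.exp t : ℂ) = 1 := by
    rw [← Complex.ofReal_mul, ← Real.exp_add, neg_add_cancel, Real.exp_zero, Complex.ofReal_one]
  refine Prod.ext ?_ (Prod.ext ?_ (Prod.ext ?_ ?_))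
  · simp only [Prod.smul_fst, Prod.fst_add, smul_eq_mul]
    push_cast
    ring
  · simp only [Prod.smul_fst, Prod.smul_snd, smul_zero, Prod.fst_add, Prod.snd_add, add_zero]
    rw [← mul_assoc, h, one_mul]
  · simp only [Prod.smul_fst, Prod.smul_snd, smul_zero, Prod.fst_add, Prod.snd_add, add_zero]
  · simp only [Prod.smul_snd, smul_zero, Prod.snd_add, add_zero]

theorem norm_P4 : ‖P4‖ ≤ 1 := by
  refine ContinuousLinearMap.opNorm_le_bound _ zero_le_one fun x => ?_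
  rw [one_mul, P4_apply]
  have h1 : ‖x.1‖ ≤ ‖x‖ := norm_fst_le x
  have h2 : ‖x.2.1‖ ≤ ‖x‖ := (norm_fst_le x.2).trans (norm_snd_le x)
  have h0 : ‖(0 : ℂ)‖ ≤ ‖x‖ := by rw [norm_zero]; exact norm_nonneg x
  show max ‖x.1‖ (max ‖x.2.1‖ (max ‖(0 : ℂ)‖ ‖(0 : ℂ)‖)) ≤ ‖x‖
  exact max_le h1 (max_le h2 (max_le h0 h0))

theorem norm_E4 : ‖E4‖ ≤ 1 := by
  refine ContinuousLinearMap.opNorm_le_bound _ zero_le_one fun x => ?_
  rw [one_mul, E4_apply]
  have h2 : ‖x.2.1‖ ≤ ‖x‖ := (norm_fst_le x.2).trans (norm_snd_le x)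
  have h0 : ‖(0 : ℂ)‖ ≤ ‖x‖ := by rw [norm_zero]; exact norm_nonneg x
  show max ‖x.2.1‖ (max ‖(0 : ℂ)‖ (max ‖(0 : ℂ)‖ ‖(0 : ℂ)‖)) ≤ ‖x‖
  exact max_le h2 (max_le h0 (max_le h0 h0))

theorem norm_red (lam t : ℝ) : ‖P4 * (sgrp D4 (-t) * sgrp (D4 + (lam : ℂ) • L4) t) * P4‖ ≤ 1 + 2 * lam ^ 2 := by
  rw [red]
  refine (norm_add_le _ _).trans (add_le_add norm_P4 ?_)
  rw [norm_smul, Complex.norm_real, Real.norm_eq_abs]
  have h1 : |lam ^ 2 * (1 - Real.cos t)| ≤ 2 * lam ^ 2 := by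
    rw [abs_mul, abs_of_nonneg (sq_nonneg lam), mul_comm 2]
    refine mul_le_mul_of_nonneg_left ?_ (sq_nonneg lam)
    rw [abs_le]
    constructor <;> linarith [Real.cos_le_one t, Real.neg_one_le_cos t]
  calc |lam ^ 2 * (1 - Real.cos t)| * ‖E4‖ ≤ 2 * lam ^ 2 * 1 :=
        mul_le_mul h1 norm_E4 (norm_nonneg _) (by positivity)
    _ = 2 * lam ^ 2 := mul_one _

/-! ## integrability -/

theorem meas_simplex (k : ℕ) (t : ℝ) : MeasurableSet (simplex k t) := by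
  have e : simplex k t = (⋂ i : Fin k, {τ : Fin k → ℝ | τ i < t}) ∩
      ⋂ i : Fin k, ⋂ j : Fin k, {τ : Fin k → ℝ | i < j → τ j < τ i} := by
    ext τ
    simp only [simplex, Set.mem_ofPred_eq, mem_inter_iff, mem_iInter]
    exact ⟨fun h => ⟨h.1, fun i j hij => h.2 hij⟩, fun h => ⟨h.1, fun i j hij => h.2 i j hij⟩⟩
  rw [e]
  refine MeasurableSet.inter (MeasurableSet.iInter fun i => ?_)
    (MeasurableSet.iInter fun i => MeasurableSet.iInter fun j => ?_)
  · exact measurableSet_lt (measurable_pi_apply i) measurable_const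
  · by_cases hij : i < j
    · have e2 : {τ : Fin k → ℝ | i < j → τ j < τ i} = {τ : Fin k → ℝ | τ j < τ i} := by
        ext τ
        simp [hij]
      rw [e2]
      exact measurableSet_lt (measurable_pi_apply j) (measurable_pi_apply i)
    · have e2 : {τ : Fin k → ℝ | i < j → τ j < τ i} = univ := by
        ext τ
        simp [hij]
      rw [e2]
      exact MeasurableSet.univ

private theorem int_half (t : ℝ) : Integrable (fun s : ℝ => (Iio t).indicator (fun s => Real.exp (s / 2)) s) := by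
  rw [integrable_indicator_iff measurableSet_Iio]
  have h := integrableOn_exp_mul_Iic (a := (1 / 2 : ℝ)) (by norm_num) t
  refine (h.mono_set Iio_subset_Iic_self).congr_fun (fun s _ => ?_) measurableSet_Iio
  simp only
  congr 1
  ring

theorem int_dom {k : ℕ} (t C : ℝ) (F : (Fin k → ℝ) → ℝ) (hF : Continuous F)
    (hb : ∀ τ ∈ simplex k t, |F τ| ≤ C * ∏ i, Real.exp (τ i / 2)) : IntegrableOn F (simplex k t) := by
  have h0 : Integrable (fun τ : Fin k → ℝ => ∏ i, (Iio t).indicator (fun s => Real.exp (s / 2)) (τ i)) :=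
    Integrable.fintype_prod (fun _ => int_half t)
  have h1 : IntegrableOn (fun τ : Fin k → ℝ => C * ∏ i, (Iio t).indicator (fun s => Real.exp (s / 2)) (τ i))
      (simplex k t) := (h0.const_mul C).integrableOn
  refine Integrable.mono' h1 hF.aestronglyMeasurable ?_
  filter_upwards [ae_restrict_mem (meas_simplex k t)] with τ hτ
  rw [Real.norm_eq_abs]
  refine (hb τ hτ).trans_eq ?_
  congr 1
  refine Finset.prod_congr rfl fun i _ => ?_
  rw [indicator_of_mem (show τ i ∈ Iio t from hτ.1 i)]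

private theorem trig_le (s : ℝ) : |Real.cos s - Real.sin s| ≤ 2 := by
  rw [abs_le]
  constructor <;> linarith [Real.cos_le_one s, Real.neg_one_le_cos s, Real.sin_le_one s, Real.neg_one_le_sin s]

theorem order (k : ℕ) (hk : 1 ≤ k) : IntegrableOrder P4 D4 L4 k := by
  intro t
  match k, hk with
  | 1, _ =>
    have e : (fun τ : Fin 1 → ℝ => ‖P4 * (List.ofFn fun i => inter D4 L4 (τ i)).prod * P4‖) = fun _ => 0 := by
      funext τ
      have h : (List.ofFn fun i => inter D4 L4 (τ i)).prod = inter D4 L4 (τ 0) := by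
        rw [List.ofFn_succ, List.ofFn_zero, List.prod_cons, List.prod_nil, mul_one]
      rw [h, one, norm_zero]
    rw [e]
    exact integrableOn_zero
  | 2, _ =>
    have e : (fun τ : Fin 2 → ℝ => ‖P4 * (List.ofFn fun i => inter D4 L4 (τ i)).prod * P4‖) = fun τ =>
        |Real.exp (τ 1) * (Real.cos (τ 0 - τ 1) - Real.sin (τ 0 - τ 1))| * ‖E4‖ := by
      funext τ
      have h : (List.ofFn fun i => inter D4 L4 (τ i)).prod = inter D4 L4 (τ 0) * inter D4 L4 (τ 1) := by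
        rw [List.ofFn_succ, List.ofFn_succ, List.ofFn_zero, List.prod_cons, List.prod_cons, List.prod_nil, mul_one]
        rfl
      rw [h, two, norm_smul, Complex.norm_real, Real.norm_eq_abs]
    rw [e]
    refine int_dom t 2 _ (by fun_prop) fun τ hτ => ?_
    have h1 : τ 1 < τ 0 := hτ.2 (by decide)
    rw [abs_mul, abs_abs, abs_of_nonneg (norm_nonneg E4), abs_mul, abs_of_pos (Real.exp_pos _), Fin.prod_univ_two,
      ← Real.exp_add]
    have h2 : Real.exp (τ 1) ≤ Real.exp (τ 0 / 2 + τ 1 / 2) := Real.exp_le_exp.2 (by linarith)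
    calc Real.exp (τ 1) * |Real.cos (τ 0 - τ 1) - Real.sin (τ 0 - τ 1)| * ‖E4‖
        ≤ Real.exp (τ 0 / 2 + τ 1 / 2) * 2 * 1 :=
          mul_le_mul (mul_le_mul h2 (trig_le _) (abs_nonneg _) (Real.exp_pos _).le) norm_E4 (norm_nonneg _)
            (by positivity)
      _ = 2 * Real.exp (τ 0 / 2 + τ 1 / 2) := by ring
  | k + 3, _ =>
    have e : (fun τ : Fin (k + 3) → ℝ => ‖P4 * (List.ofFn fun i => inter D4 L4 (τ i)).prod * P4‖) = fun _ => 0 := by
      funext τ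
      rw [ofFn_eq, List.ofFn_succ, List.ofFn_succ, List.ofFn_succ, many, mul_zero, zero_mul, norm_zero]
    rw [e]
    exact integrableOn_zero

theorem relative (k : ℕ) : IntegrableRelative P4 D4 L4 k := by
  intro t
  match k with
  | 0 =>
    have e : (fun τ : Fin 0 → ℝ => ‖P4 * (inter D4 L4 t * (List.ofFn fun i => inter D4 L4 (τ i)).prod) * P4‖) =
        fun _ => 0 := by
      funext τ
      rw [List.ofFn_zero, List.prod_nil, mul_one, one, norm_zero]
    rw [e]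
    exact integrableOn_zero
  | 1 =>
    have e : (fun τ : Fin 1 → ℝ => ‖P4 * (inter D4 L4 t * (List.ofFn fun i => inter D4 L4 (τ i)).prod) * P4‖) =
        fun τ => |Real.exp (τ 0) * (Real.cos (t - τ 0) - Real.sin (t - τ 0))| * ‖E4‖ := by
      funext τ
      have h : (List.ofFn fun i => inter D4 L4 (τ i)).prod = inter D4 L4 (τ 0) := by
        rw [List.ofFn_succ, List.ofFn_zero, List.prod_cons, List.prod_nil, mul_one]
      rw [h, two, norm_smul, Complex.norm_real, Real.norm_eq_abs]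
    rw [e]
    refine int_dom t (2 * Real.exp (t / 2)) _ (by fun_prop) fun τ hτ => ?_
    have h1 : τ 0 < t := hτ.1 0
    rw [abs_mul, abs_abs, abs_of_nonneg (norm_nonneg E4), abs_mul, abs_of_pos (Real.exp_pos _), Fin.prod_univ_one,
      mul_assoc 2 (Real.exp (t / 2)), ← Real.exp_add]
    have h2 : Real.exp (τ 0) ≤ Real.exp (t / 2 + τ 0 / 2) := Real.exp_le_exp.2 (by linarith)
    calc Real.exp (τ 0) * |Real.cos (t - τ 0) - Real.sin (t - τ 0)| * ‖E4‖
        ≤ Real.exp (t / 2 + τ 0 / 2) * 2 * 1 :=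
          mul_le_mul (mul_le_mul h2 (trig_le _) (abs_nonneg _) (Real.exp_pos _).le) norm_E4 (norm_nonneg _)
            (by positivity)
      _ = 2 * Real.exp (t / 2 + τ 0 / 2) := by ring
  | k + 2 =>
    have e : (fun τ : Fin (k + 2) → ℝ => ‖P4 * (inter D4 L4 t * (List.ofFn fun i => inter D4 L4 (τ i)).prod) * P4‖) =
        fun _ => 0 := by
      funext τ
      have h : inter D4 L4 t * (List.ofFn fun i => inter D4 L4 (τ i)).prod = 0 := by
        rw [ofFn_eq, List.ofFn_succ, List.ofFn_succ, ← List.prod_cons, ← List.map_cons, many]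
      rw [h, mul_zero, zero_mul, norm_zero]
    rw [e]
    exact integrableOn_zero

/-! ## no asymptotics -/

/-- an analytic function which is `O(x^2)` at `0+`: the quotient by `x^2` converges -/
theorem lim_two {F : ℝ → ℂ} (hF : AnalyticAt ℝ F 0) (hO : F =O[𝓝[>] 0] (fun x : ℝ => x ^ 2)) :
    ∃ c : ℂ, Tendsto (fun x : ℝ => (x ^ 2)⁻¹ • F x) (𝓝[>] 0) (𝓝 c) := by
  by_cases hz : ∀ᶠ z in 𝓝 (0 : ℝ), F z = 0
  · refine ⟨0, ?_⟩
    have h1 : ∀ᶠ z in 𝓝[>] (0 : ℝ), (0 : ℂ) = (z ^ 2)⁻¹ • F z := by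
      filter_upwards [nhdsWithin_le_nhds hz] with z hz
      rw [hz, smul_zero]
    exact tendsto_const_nhds.congr' h1
  · obtain ⟨N, g, hg_an, hg_ne, hg_eq⟩ := hF.exists_eventuallyEq_pow_smul_nonzero_iff.2 hz
    have hg : Tendsto g (𝓝[>] 0) (𝓝 (g 0)) := hg_an.continuousAt.tendsto.mono_left nhdsWithin_le_nhds
    have hpos : ∀ᶠ z : ℝ in 𝓝[>] (0 : ℝ), z ≠ 0 := by
      filter_upwards [self_mem_nhdsWithin] with z hz using ne_of_gt hz
    have hid : Tendsto (fun z : ℝ => z) (𝓝[>] 0) (𝓝 0) := tendsto_id.mono_left nhdsWithin_le_nhds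
    by_cases hN : 2 ≤ N
    · obtain ⟨r, rfl⟩ := Nat.exists_eq_add_of_le hN
      refine ⟨(0 : ℝ) ^ r • g 0, ?_⟩
      have h2 : Tendsto (fun z : ℝ => z ^ r • g z) (𝓝[>] 0) (𝓝 ((0 : ℝ) ^ r • g 0)) := (hid.pow r).smul hg
      refine h2.congr' ?_
      filter_upwards [nhdsWithin_le_nhds hg_eq, hpos] with z hz h0
      rw [hz, sub_zero, pow_add, mul_smul, smul_smul, inv_mul_cancel₀ (pow_ne_zero 2 h0), one_smul]
    · exfalso
      have h1 : Tendsto (fun z : ℝ => (z ^ N)⁻¹ • F z) (𝓝[>] 0) (𝓝 (g 0)) := by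
        refine hg.congr' ?_
        filter_upwards [nhdsWithin_le_nhds hg_eq, hpos] with z hz h0
        rw [hz, sub_zero, smul_smul, inv_mul_cancel₀ (pow_ne_zero N h0), one_smul]
      have h2 := (isBigO_refl (fun z : ℝ => (z ^ N)⁻¹) (𝓝[>] 0)).smul hO
      have h3 : Tendsto (fun z : ℝ => (z ^ N)⁻¹ • z ^ 2) (𝓝[>] 0) (𝓝 0) := by
        have h4 : Tendsto (fun z : ℝ => z ^ (2 - N)) (𝓝[>] 0) (𝓝 0) := by
          have h5 := hid.pow (2 - N)
          rwa [zero_pow (by omega : 2 - N ≠ 0)] at h5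
        refine h4.congr' ?_
        filter_upwards [hpos] with z h0
        have h5 : z ^ 2 = z ^ N * z ^ (2 - N) := by
          rw [← pow_add]
          congr 1
          omega
        rw [h5, smul_eq_mul, ← mul_assoc, inv_mul_cancel₀ (pow_ne_zero N h0), one_mul]
      have h4 := h2.trans_tendsto h3
      exact hg_ne (tendsto_nhds_unique h1 h4)

private theorem no_lim (c : ℂ) : ¬ Tendsto (fun s : ℝ => ((1 - Real.cos s : ℝ) : ℂ)) atTop (𝓝 c) := by
  intro h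
  have hs : Tendsto (fun j : ℕ => (j : ℝ) * (2 * Real.pi)) atTop atTop :=
    (tendsto_natCast_atTop_atTop (R := ℝ)).atTop_mul_const (by positivity)
  have hs' : Tendsto (fun j : ℕ => (j : ℝ) * (2 * Real.pi) + Real.pi) atTop atTop :=
    tendsto_atTop_add_const_right _ _ hs
  have h1 := h.comp hs
  have h2 := h.comp hs'
  have e1 : ((fun s : ℝ => ((1 - Real.cos s : ℝ) : ℂ)) ∘ fun j : ℕ => (j : ℝ) * (2 * Real.pi)) = fun _ => 0 := by
    funext j
    simp only [Function.comp_apply]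
    rw [Real.cos_nat_mul_two_pi, sub_self, Complex.ofReal_zero]
  have e2 : ((fun s : ℝ => ((1 - Real.cos s : ℝ) : ℂ)) ∘ fun j : ℕ => (j : ℝ) * (2 * Real.pi) + Real.pi) =
      fun _ => 2 := by
    funext j
    simp only [Function.comp_apply]
    rw [Real.cos_nat_mul_two_pi_add_pi]
    norm_num
  rw [e1] at h1
  rw [e2] at h2
  have h3 := tendsto_nhds_unique h1 tendsto_const_nhds
  have h4 := tendsto_nhds_unique h2 tendsto_const_nhds
  rw [h3] at h4
  norm_num at h4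

theorem no_analytic_cos {t : ℝ} (ht : 0 < t) {N : ℕ} (hN : 4 ≤ N) {F : ℝ → ℂ} (hF : AnalyticAt ℝ F 0)
    (hO : (fun lam : ℝ => ((lam ^ 2 * (1 - Real.cos (t / lam ^ 2)) : ℝ) : ℂ) - F lam) =O[𝓝[>] 0]
      (fun lam : ℝ => lam ^ N)) : False := by
  have hpos : ∀ᶠ z : ℝ in 𝓝[>] (0 : ℝ), 0 < z := self_mem_nhdsWithin
  have hlt : ∀ᶠ z : ℝ in 𝓝[>] (0 : ℝ), z < 1 :=
    nhdsWithin_le_nhds (Iio_mem_nhds (by norm_num : (0 : ℝ) < 1))
  have hid : Tendsto (fun z : ℝ => z) (𝓝[>] 0) (𝓝 0) := tendsto_id.mono_left nhdsWithin_le_nhds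
  have hpow : (fun lam : ℝ => lam ^ N) =O[𝓝[>] 0] (fun lam : ℝ => lam ^ 4) := by
    refine IsBigO.of_bound 1 ?_
    filter_upwards [hpos, hlt] with z h0 h1
    rw [one_mul, Real.norm_of_nonneg (pow_nonneg h0.le _), Real.norm_of_nonneg (pow_nonneg h0.le _)]
    exact pow_le_pow_of_le_one h0.le h1.le hN
  have hO4 := hO.trans hpow
  have h42 : (fun lam : ℝ => lam ^ 4) =O[𝓝[>] 0] (fun lam : ℝ => lam ^ 2) := by
    refine IsBigO.of_bound 1 ?_
    filter_upwards [hpos, hlt] with z h0 h1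
    rw [one_mul, Real.norm_of_nonneg (pow_nonneg h0.le _), Real.norm_of_nonneg (pow_nonneg h0.le _)]
    exact pow_le_pow_of_le_one h0.le h1.le (by norm_num)
  have hh : (fun lam : ℝ => ((lam ^ 2 * (1 - Real.cos (t / lam ^ 2)) : ℝ) : ℂ)) =O[𝓝[>] 0] (fun lam : ℝ => lam ^ 2) := by
    refine IsBigO.of_bound 2 (Eventually.of_forall fun z => ?_)
    rw [Complex.norm_real, Real.norm_eq_abs, abs_mul, Real.norm_eq_abs, mul_comm 2]
    refine mul_le_mul_of_nonneg_left ?_ (abs_nonneg _)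
    rw [abs_le]
    constructor <;> linarith [Real.cos_le_one (t / z ^ 2), Real.neg_one_le_cos (t / z ^ 2)]
  have hF2 : F =O[𝓝[>] 0] (fun x : ℝ => x ^ 2) := by
    have h1 := hh.sub (hO4.trans h42)
    refine h1.congr_left fun z => ?_
    ring
  obtain ⟨c, hc⟩ := lim_two hF hF2
  have hd : Tendsto (fun x : ℝ => (x ^ 2)⁻¹ • (((x ^ 2 * (1 - Real.cos (t / x ^ 2)) : ℝ) : ℂ) - F x)) (𝓝[>] 0)
      (𝓝 0) := by
    have h2 := (isBigO_refl (fun z : ℝ => (z ^ 2)⁻¹) (𝓝[>] 0)).smul hO4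
    refine h2.trans_tendsto ?_
    have h3 : Tendsto (fun z : ℝ => z ^ 2) (𝓝[>] 0) (𝓝 0) := by
      have h5 := hid.pow 2
      rwa [zero_pow (by norm_num : 2 ≠ 0)] at h5
    refine h3.congr' ?_
    filter_upwards [hpos] with z h0
    have h5 : z ^ 4 = z ^ 2 * z ^ 2 := by ring
    rw [h5, smul_eq_mul, ← mul_assoc, inv_mul_cancel₀ (pow_ne_zero 2 h0.ne'), one_mul]
  have hs := hd.add hc
  rw [zero_add] at hs
  have hs2 : Tendsto (fun x : ℝ => ((1 - Real.cos (t / x ^ 2) : ℝ) : ℂ)) (𝓝[>] 0) (𝓝 c) := by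
    refine hs.congr' ?_
    filter_upwards [hpos] with z h0
    rw [← smul_add, sub_add_cancel, Complex.real_smul, ← Complex.ofReal_mul, ← mul_assoc,
      inv_mul_cancel₀ (pow_ne_zero 2 h0.ne'), one_mul]
  have hsq : Tendsto (fun s : ℝ => Real.sqrt (t / s)) atTop (𝓝[>] 0) := by
    rw [tendsto_nhdsWithin_iff]
    constructor
    · have h1 : Tendsto (fun s : ℝ => t / s) atTop (𝓝 0) := tendsto_const_nhds.div_atTop tendsto_id
      have h2 := (Real.continuous_sqrt.tendsto 0).comp h1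
      rwa [Real.sqrt_zero] at h2
    · filter_upwards [eventually_gt_atTop (0 : ℝ)] with s hs
      exact Real.sqrt_pos.2 (div_pos ht hs)
  have h3 := hs2.comp hsq
  refine no_lim c (h3.congr' ?_)
  filter_upwards [eventually_gt_atTop (0 : ℝ)] with s hs
  simp only [Function.comp_apply]
  rw [Real.sq_sqrt (div_pos ht hs).le, div_div_cancel₀ ht.ne']

theorem no_asymp (n : ℕ) (hn : 1 ≤ n) (t : ℝ) (ht : 0 < t) : ¬ HasPolyAsymptotics P4 D4 L4 (2 * n + 2) t := by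
  rintro ⟨a, b, G, R, hO⟩
  have : FiniteDimensional ℂ (LinearMap.range P4.toLinearMap) := inferInstance
  have : CompleteSpace (LinearMap.range P4.toLinearMap) := FiniteDimensional.complete ℂ _
  have he : P4 ((0, 1, 0, 0) : M4) = (0, 1, 0, 0) := rfl
  have h1 := abs_isBigO (evl (c1.comp (LinearMap.range P4.toLinearMap).subtypeL)
    (⟨(0, 1, 0, 0), ⟨(0, 1, 0, 0), he⟩⟩ : LinearMap.range P4.toLinearMap)) _ _ _ hO
  have hF := analytic_approx G R t (evl (c1.comp (LinearMap.range P4.toLinearMap).subtypeL)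
    (⟨(0, 1, 0, 0), ⟨(0, 1, 0, 0), he⟩⟩ : LinearMap.range P4.toLinearMap))
  refine no_analytic_cos ht (by omega : 4 ≤ 2 * n + 2) hF (h1.congr_left ?_)
  intro lam
  congr 1
  have e : evl (c1.comp (LinearMap.range P4.toLinearMap).subtypeL)
      (⟨(0, 1, 0, 0), ⟨(0, 1, 0, 0), he⟩⟩ : LinearMap.range P4.toLinearMap)
      (compress P4 (sgrp D4 (-(t / lam ^ 2)) * sgrp (D4 + (lam : ℂ) • L4) (t / lam ^ 2))) =
      ((P4 * (sgrp D4 (-(t / lam ^ 2)) * sgrp (D4 + (lam : ℂ) • L4) (t / lam ^ 2)) * P4) ((0, 1, 0, 0) : M4)).1 := by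
    have e2 : (P4 * (sgrp D4 (-(t / lam ^ 2)) * sgrp (D4 + (lam : ℂ) • L4) (t / lam ^ 2)) * P4) ((0, 1, 0, 0) : M4) =
      P4 (sgrp D4 (-(t / lam ^ 2)) (sgrp (D4 + (lam : ℂ) • L4) (t / lam ^ 2) (P4 ((0, 1, 0, 0) : M4)))) := rfl
    rw [e2, he]
    rfl
  rw [e, red]
  simp [P4_apply, E4_apply]

end Pool.Agent.H91.WC
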