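import Mathlib
import Pool.Agent.H39.WCDefs

set_option autoImplicit false
open Pool.Agent.H39.WC

namespace Pool.Agent.H91.WC

/-- All hypotheses of the problem on `P`, `L0`, `L`, for every `n`: `P` is a projection, `exp (t L0)` commutes with `P`,
`P L P = 0`, and the products `P L_{t_1} .. L_{t_k} P` of every order `k ≥ 1` are absolutely integrable over
`{t_k < .. < t_1 < t}` for every `t`. -/
structure WordedAllOrders {B : Type} [NormedAddCommGroup B] [NormedSpace ℂ B] (P L0 L : B →L[ℂ] B) : Prop where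
  proj : P * P = P
  invariant : ∀ t : ℝ, sgrp L0 t * P = P * sgrp L0 t
  offDiagonal : P * L * P = 0
  integrable : ∀ k : ℕ, 1 ≤ k → IntegrableOrder P L0 L k

/-- The products of order two are `exp r (cos (s - r) - sin (s - r)) E` with `E ≠ 0`, the products of the orders
`1, 3, 4, ..` vanish. -/
structure OnlySecondOrder {B : Type} [NormedAddCommGroup B] [NormedSpace ℂ B] (P L0 L E : B →L[ℂ] B) : Prop where
  ne : E ≠ 0
  two : ∀ s r : ℝ, P * (inter L0 L s * inter L0 L r) * P =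
    ((Real.exp r * (Real.cos (s - r) - Real.sin (s - r)) : ℝ) : ℂ) • E
  other : ∀ k : ℕ, 1 ≤ k → k ≠ 2 → ∀ τ : Fin k → ℝ, P * (List.ofFn fun i => inter L0 L (τ i)).prod * P = 0

/-- `‖P exp (-t L0) exp (t (L0 + lam L)) P‖ ≤ 1 + 2 lam^2` for all real `lam`, `t`. -/
def BoundedReduced {B : Type} [NormedAddCommGroup B] [NormedSpace ℂ B] (P L0 L : B →L[ℂ] B) : Prop :=
  ∀ lam t : ℝ, ‖P * (sgrp L0 (-t) * sgrp (L0 + (lam : ℂ) • L) t) * P‖ ≤ 1 + 2 * lam ^ 2

end Pool.Agent.H91.WC
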